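import Pool.Agent.N943.NT.Asm
import Pool.Agent.N749.NT.TreeNum
import Pool.Agent.N749.NT.Reroot
import Pool.Agent.N749.NT.Growth
import Pool.Agent.N749.NT.Marks
import Pool.Agent.N495.NT.Decode
import Pool.Agent.N495.NT.ExB
import Pool.Agent.N495.NT.SwapFam
import Pool.Agent.N218.NT.Mult
import Pool.Agent.N218.NT.ExS
import Pool.Agent.N218.NT.Two
import Pool.Agent.N218.NT.Leaf
import Pool.Agent.N152.NT.ExU

set_option autoImplicit false

namespace N943.NT

/-- The final theorem, with the number of types as defined in `Asm`. -/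
theorem target (D : ℕ) :
    ∃ c : ℝ, 0 < c ∧ ∀ (n : ℕ) (G : SimpleGraph (Fin n)), G.Connected →
      (∀ v, 3 ≤ (G.neighborSet v).ncard ∧ (G.neighborSet v).ncard ≤ D) →
      Real.exp (c * n) ≤ (numTypes G : ℝ) :=
  final Pool.Agent.N749.NT.treeOf Pool.Agent.N749.NT.reroot Pool.Agent.N749.NT.exNormal
    Pool.Agent.N495.NT.exB (Pool.Agent.N495.NT.swapFam Pool.Agent.N495.NT.decode)
    Pool.Agent.N749.NT.numI N152.NT.exU Pool.Agent.N218.NT.exS
    (Pool.Agent.N218.NT.leafFam
      (Pool.Agent.N749.NT.marks (Pool.Agent.N749.NT.growth Pool.Agent.N218.NT.multBd)))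
    (Pool.Agent.N218.NT.twoTrees Pool.Agent.N749.NT.exNormal) D

end N943.NT
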