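import Pool.Agent.N943.NT.Basic

set_option autoImplicit false

namespace N943.NT

open Finset

/-- isomorphism of spanning trees of `G` as an equivalence relation. -/
def isoSetoid {V : Type} (G : SimpleGraph V) : Setoid {T : SimpleGraph V // T ≤ G ∧ T.IsTree} where
  r S T := Nonempty (S.1 ≃g T.1)
  iseqv := {
    refl := fun _ => ⟨SimpleGraph.Iso.refl⟩
    symm := fun ⟨e⟩ => ⟨e.symm⟩
    trans := fun ⟨e⟩ ⟨f⟩ => ⟨e.trans f⟩ }

/-- the number of isomorphism classes of spanning trees of `G`. -/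
noncomputable def numTypes {V : Type} (G : SimpleGraph V) : ℕ :=
  Nat.card (Quotient (isoSetoid G))

theorem card_le_numTypes {V : Type} [Fintype V] [DecidableEq V] (h1 : TreeOf)
    (G : SimpleGraph V) (F : Finset (V → V)) (g : (V → V) → V)
    (hF : ∀ p ∈ F, RT (g p) p ∧ InG G p)
    (hiso : ∀ p ∈ F, ∀ q ∈ F, Nonempty (gr p ≃g gr q) → p = q) : F.card ≤ numTypes G := by
  classical
  have ht : ∀ p : F, gr p.1 ≤ G ∧ (gr p.1).IsTree := fun p =>
    h1 V G (g p.1) p.1 (hF p.1 p.2).1 (hF p.1 p.2).2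
  have : Finite (Quotient (isoSetoid G)) := inferInstance
  have hinj : Function.Injective (fun p : F =>
      (Quotient.mk (isoSetoid G) ⟨gr p.1, ht p⟩ : Quotient (isoSetoid G))) := by
    intro p q hpq
    have : Nonempty (gr p.1 ≃g gr q.1) := Quotient.exact hpq
    exact Subtype.ext (hiso p.1 p.2 q.1 q.2 this)
  have := Nat.card_le_card_of_injective _ hinj
  simpa [numTypes] using this

/-- the number of conjugacy classes of rooted spanning trees is exponential. -/
theorem rooted (h3 : ExNormal) (h5a : ExB) (h5b : SwapFam) (h5c : NumI) (h7a : ExU)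
    (h7b : ExS) (h7c : LeafFam) (D : ℕ) (hD : 1 ≤ D) :
    ∃ c : ℝ, 0 < c ∧ ∃ n0 : ℕ, ∀ (V : Type) [Fintype V] [DecidableEq V] (G : SimpleGraph V)
      (r : V), G.Connected → n0 ≤ Fintype.card V → (∀ v, 3 ≤ dg G v ∧ dg G v ≤ D) →
      ∃ F : Finset (V → V), (∀ q ∈ F, RT r q ∧ InG G q) ∧
        (∀ q ∈ F, ∀ q' ∈ F, Conj q q' → q = q') ∧
        Real.exp (c * Fintype.card V) ≤ (F.card : ℝ) := by
  obtain ⟨δ, c, hδ, hc, n0, hn⟩ := h5c D hD
  obtain ⟨γ, hγ, hleaf⟩ := h7c D
  have hD0 : (0 : ℝ) < (D : ℝ) := by exact_mod_cast hD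
  have hlog : 0 < Real.log γ := Real.log_pos hγ
  refine ⟨min c (Real.log γ * (δ / (4 * D ^ 2))), by positivity, n0, ?_⟩
  intro V _ _ G r hG hcard hdeg
  obtain ⟨p, hp, hpG, hpN⟩ := h3 V G r hG
  by_cases hl : ((nochild p).card : ℝ) ≤ δ * Fintype.card V
  · obtain ⟨B, y, hB, hBc⟩ := h5a V G r p D hp hpG hpN hdeg
    obtain ⟨k, hk⟩ := hn (Fintype.card V) B.card (nochild p).card hcard hBc hl
    obtain ⟨F, hF1, hF2, hF3⟩ := h5b V G r p y D k B hp hpG (fun v => (hdeg v).2) hB
    refine ⟨F, hF1, hF2, ?_⟩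
    have hfac : (0 : ℝ) < (D.factorial : ℝ) ^ ((nochild p).card + k) := by
      have := Nat.factorial_pos D
      positivity
    have h1 : Real.exp (c * Fintype.card V) * (D.factorial : ℝ) ^ ((nochild p).card + k) ≤
        (F.card : ℝ) * (D.factorial : ℝ) ^ ((nochild p).card + k) := by
      refine hk.trans ?_
      have : ((B.card.choose k : ℕ) : ℝ) ≤
          (((D.factorial) ^ ((nochild p).card + k) * F.card : ℕ) : ℝ) := by exact_mod_cast hF3
      rw [Nat.cast_mul, Nat.cast_pow, mul_comm] at this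
      exact this
    have h2 := le_of_mul_le_mul_right h1 hfac
    refine le_trans (Real.exp_le_exp.2 ?_) h2
    exact mul_le_mul_of_nonneg_right (min_le_left _ _) (Nat.cast_nonneg _)
  · push Not at hl
    obtain ⟨U, a, b, hU, hUc⟩ := h7a V G r p D hp hpG hpN hdeg
    have hne : ∀ u ∈ U, dep r p (a u) ≠ dep r p (b u) := by
      intro u hu h
      obtain ⟨-, -, -, h4, -, h6, -, h8⟩ := hU.1 u hu
      exact h4 (Anc.eq_of_dep_eq hp h6 h8 h)
    obtain ⟨S, hS⟩ := h7b V U (fun u => dep r p (a u)) (fun u => dep r p (b u)) hne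
    obtain ⟨F, hF1, hF2, hF3⟩ := hleaf V G r p a b U S hp hpG (fun v => (hdeg v).2) hU
    refine ⟨F, hF1, hF2, le_trans ?_ hF3⟩
    set m := (U.filter (fun u => dep r p (b u) ∈ S ∧ dep r p (a u) ∉ S)).card with hm
    have h1 : ((nochild p).card : ℝ) ≤ D ^ 2 * U.card := by exact_mod_cast hUc
    have h2 : (U.card : ℝ) ≤ 4 * m := by exact_mod_cast hS
    have h3' : δ / (4 * D ^ 2) * Fintype.card V ≤ m := by
      rw [div_mul_eq_mul_div, div_le_iff₀ (by positivity)]
      calc δ * Fintype.card V ≤ (nochild p).card := hl.le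
        _ ≤ D ^ 2 * U.card := h1
        _ ≤ D ^ 2 * (4 * m) := mul_le_mul_of_nonneg_left h2 (by positivity)
        _ = m * (4 * D ^ 2) := by ring
    calc Real.exp (min c (Real.log γ * (δ / (4 * D ^ 2))) * Fintype.card V)
        ≤ Real.exp (Real.log γ * m) := by
          apply Real.exp_le_exp.2
          calc min c (Real.log γ * (δ / (4 * D ^ 2))) * Fintype.card V
              ≤ Real.log γ * (δ / (4 * D ^ 2)) * Fintype.card V :=
                mul_le_mul_of_nonneg_right (min_le_right _ _) (Nat.cast_nonneg _)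
            _ = Real.log γ * (δ / (4 * D ^ 2) * Fintype.card V) := by ring
            _ ≤ Real.log γ * m := mul_le_mul_of_nonneg_left h3' hlog.le
      _ = γ ^ m := by
          rw [mul_comm, Real.exp_nat_mul, Real.exp_log (by linarith)]

theorem large (h1 : TreeOf) (h2 : Reroot) (h3 : ExNormal) (h5a : ExB) (h5b : SwapFam)
    (h5c : NumI) (h7a : ExU) (h7b : ExS) (h7c : LeafFam) (D : ℕ) (hD : 1 ≤ D) :
    ∃ c : ℝ, 0 < c ∧ ∃ n0 : ℕ, ∀ (V : Type) [Fintype V] [DecidableEq V] (G : SimpleGraph V)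
      (_r : V), G.Connected → n0 ≤ Fintype.card V → (∀ v, 3 ≤ dg G v ∧ dg G v ≤ D) →
      Real.exp (c * Fintype.card V) ≤ (numTypes G : ℝ) := by
  obtain ⟨c, hc, n0, hn⟩ := rooted h3 h5a h5b h5c h7a h7b h7c D hD
  -- for `n ≥ n1` we have `n ≤ exp (c n / 2)`
  obtain ⟨n1, hn1⟩ : ∃ n1 : ℕ, ∀ n : ℕ, n1 ≤ n → (n : ℝ) ≤ Real.exp (c / 2 * n) := by
    have h := (Real.tendsto_exp_div_pow_atTop 1).comp
      (tendsto_natCast_atTop_atTop.const_mul_atTop (by positivity : (0 : ℝ) < c / 2))
    have h' := h.eventually_ge_atTop (2 / c)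
    rw [Filter.eventually_atTop] at h'
    obtain ⟨n1, h1⟩ := h'
    refine ⟨max n1 1, fun n hn => ?_⟩
    have h2 := h1 n (le_trans (le_max_left _ _) hn)
    have hn0 : (0 : ℝ) < n := by
      exact_mod_cast lt_of_lt_of_le Nat.one_pos (le_trans (le_max_right _ _) hn)
    simp only [Function.comp_apply, pow_one] at h2
    rw [le_div_iff₀ (by positivity)] at h2
    calc (n : ℝ) = 2 / c * (c / 2 * n) := by field_simp
      _ ≤ _ := h2
  refine ⟨c / 2, by positivity, max n0 n1, ?_⟩
  intro V _ _ G r hG hcard hdeg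
  obtain ⟨F, hF1, hF2, hF3⟩ := hn V G r hG (le_trans (le_max_left _ _) hcard) hdeg
  obtain ⟨F', hF', hFc, hiso⟩ := h2 V r F (fun p hp => (hF1 p hp).1) hF2
  have h4 : F'.card ≤ numTypes G :=
    card_le_numTypes h1 G F' (fun _ => r) (fun p hp => hF1 p (hF' hp)) hiso
  have h5 := hn1 (Fintype.card V) (le_trans (le_max_right _ _) hcard)
  have hpos : (0 : ℝ) < Real.exp (c / 2 * Fintype.card V) := Real.exp_pos _
  have h6 : Real.exp (c * Fintype.card V) ≤ Fintype.card V * (F'.card : ℝ) := by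
    refine hF3.trans ?_
    exact_mod_cast hFc
  have h7 : Real.exp (c / 2 * Fintype.card V) * Real.exp (c / 2 * Fintype.card V) ≤
      Real.exp (c / 2 * Fintype.card V) * (F'.card : ℝ) := by
    rw [← Real.exp_add]
    calc Real.exp (c / 2 * Fintype.card V + c / 2 * Fintype.card V)
        = Real.exp (c * Fintype.card V) := by ring_nf
      _ ≤ Fintype.card V * (F'.card : ℝ) := h6
      _ ≤ _ := mul_le_mul_of_nonneg_right h5 (Nat.cast_nonneg _)
  have h8 := le_of_mul_le_mul_left h7 hpos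
  refine h8.trans ?_
  exact_mod_cast h4

theorem final (h1 : TreeOf) (h2 : Reroot) (h3 : ExNormal) (h5a : ExB) (h5b : SwapFam)
    (h5c : NumI) (h7a : ExU) (h7b : ExS) (h7c : LeafFam) (h8 : TwoTrees) (D : ℕ) :
    ∃ c : ℝ, 0 < c ∧ ∀ (n : ℕ) (G : SimpleGraph (Fin n)), G.Connected →
      (∀ v, 3 ≤ (G.neighborSet v).ncard ∧ (G.neighborSet v).ncard ≤ D) →
      Real.exp (c * n) ≤ (numTypes G : ℝ) := by
  obtain ⟨c, hc, n0, hn⟩ := large h1 h2 h3 h5a h5b h5c h7a h7b h7c (D + 1) (by omega)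
  refine ⟨min c (Real.log 2 / (n0 + 1)), ?_, ?_⟩
  · have : 0 < Real.log 2 := Real.log_pos (by norm_num)
    positivity
  intro n G hG hdeg
  obtain ⟨r⟩ := hG.nonempty
  by_cases hcard : n0 ≤ n
  · have h := hn (Fin n) G r hG (by rw [Fintype.card_fin]; exact hcard)
      (fun v => ⟨(hdeg v).1, (hdeg v).2.trans (by omega)⟩)
    rw [Fintype.card_fin] at h
    refine le_trans (Real.exp_le_exp.2 ?_) h
    exact mul_le_mul_of_nonneg_right (min_le_left _ _) (Nat.cast_nonneg _)
  · obtain ⟨r', p, q, hp, hpG, hq, hqG, hpq⟩ := h8 (Fin n) G hG (fun v => (hdeg v).1)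
    have hne : p ≠ q := by
      rintro rfl
      exact hpq ⟨SimpleGraph.Iso.refl⟩
    have h4 : ({p, q} : Finset (Fin n → Fin n)).card ≤ numTypes G := by
      apply card_le_numTypes h1 G _ (fun _ => r')
      · intro x hx
        rw [mem_insert, mem_singleton] at hx
        rcases hx with rfl | rfl
        · exact ⟨hp, hpG⟩
        · exact ⟨hq, hqG⟩
      · intro x hx y hy hxy
        rw [mem_insert, mem_singleton] at hx hy
        rcases hx with rfl | rfl <;> rcases hy with rfl | rfl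
        · rfl
        · exact absurd hxy hpq
        · exact absurd (hxy.map SimpleGraph.Iso.symm) hpq
        · rfl
    rw [card_pair hne] at h4
    have h5 : (2 : ℝ) ≤ (numTypes G : ℝ) := by exact_mod_cast h4
    refine le_trans ?_ h5
    have hlog2 : 0 < Real.log 2 := Real.log_pos (by norm_num)
    calc Real.exp (min c (Real.log 2 / (n0 + 1)) * n)
        ≤ Real.exp (Real.log 2) := by
          apply Real.exp_le_exp.2
          calc min c (Real.log 2 / (n0 + 1)) * n ≤ Real.log 2 / (n0 + 1) * n :=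
                mul_le_mul_of_nonneg_right (min_le_right _ _) (Nat.cast_nonneg _)
            _ ≤ Real.log 2 / (n0 + 1) * (n0 + 1) := by
                apply mul_le_mul_of_nonneg_left _ (by positivity)
                push Not at hcard
                have : (n : ℝ) ≤ n0 := by exact_mod_cast hcard.le
                linarith
            _ = Real.log 2 := by field_simp
      _ = 2 := Real.exp_log (by norm_num)

end N943.NT
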