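import Pool.Agent.N943.NT.Stm

set_option autoImplicit false

namespace N943.NT

open Finset

section basic
variable {V : Type} {r : V} {p q : V → V}

theorem iter_root (h : p r = r) (k : ℕ) : p^[k] r = r := Function.iterate_fixed h k

theorem RT.iter_dep (h : RT r p) (v : V) : p^[dep r p v] v = r := by
  have : {k | p^[k] v = r}.Nonempty := h.2 v
  exact Nat.sInf_mem this

theorem dep_le {k : ℕ} {v : V} (h : p^[k] v = r) : dep r p v ≤ k := Nat.sInf_le h

theorem dep_root : dep r p r = 0 := Nat.le_zero.1 (dep_le (k := 0) rfl)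

theorem RT.dep_eq_zero (h : RT r p) {v : V} : dep r p v = 0 ↔ v = r := by
  constructor
  · intro h0
    have := h.iter_dep v
    rw [h0] at this
    exact this
  · rintro rfl
    exact dep_root

theorem RT.dep_succ (h : RT r p) {v : V} (hv : v ≠ r) : dep r p v = dep r p (p v) + 1 := by
  apply le_antisymm
  · apply dep_le
    rw [Function.iterate_succ_apply]
    exact h.iter_dep _
  · have h1 : dep r p v ≠ 0 := fun h0 => hv (h.dep_eq_zero.1 h0)
    obtain ⟨k, hk⟩ := Nat.exists_eq_succ_of_ne_zero h1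
    rw [hk]
    apply Nat.succ_le_succ
    apply dep_le
    have := h.iter_dep v
    rw [hk, Function.iterate_succ_apply] at this
    exact this

theorem RT.dep_pos (h : RT r p) {v : V} (hv : v ≠ r) : 0 < dep r p v := by
  rw [h.dep_succ hv]; omega

theorem RT.eq_root_of_fix (h : RT r p) {v : V} (hv : p v = v) : v = r := by
  obtain ⟨k, hk⟩ := h.2 v
  rw [iter_root hv] at hk
  exact hk

/-- a criterion: the parent decreases some function to `ℕ`. -/
theorem RT_of_lt (f : V → ℕ) (h0 : p r = r) (h : ∀ v, v ≠ r → f (p v) < f v) : RT r p := by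
  refine ⟨h0, ?_⟩
  intro v
  generalize hn : f v = n
  induction n using Nat.strong_induction_on generalizing v with
  | _ n ih =>
    by_cases hv : v = r
    · exact ⟨0, hv⟩
    · obtain ⟨k, hk⟩ := ih (f (p v)) (hn ▸ h v hv) (p v) rfl
      exact ⟨k + 1, by rw [Function.iterate_succ_apply]; exact hk⟩

theorem RT.dep_iter (h : RT r p) : ∀ (k : ℕ) (v : V), k ≤ dep r p v →
    dep r p (p^[k] v) + k = dep r p v := by
  intro k
  induction k with
  | zero => intro v _; simp
  | succ k ih =>
    intro v hk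
    have hv : v ≠ r := by
      rintro rfl
      rw [dep_root] at hk
      omega
    have h1 := h.dep_succ hv
    rw [Function.iterate_succ_apply]
    have h2 := ih (p v) (by omega)
    omega

theorem Anc.refl (v : V) : Anc p v v := ⟨0, rfl⟩

theorem Anc.trans {a b c : V} (h1 : Anc p a b) (h2 : Anc p b c) : Anc p a c := by
  obtain ⟨k, hk⟩ := h1
  obtain ⟨l, hl⟩ := h2
  refine ⟨k + l, ?_⟩
  rw [Function.iterate_add_apply, hl, hk]

theorem Anc.parent (v : V) : Anc p (p v) v := ⟨1, rfl⟩

theorem Anc.cases {a v : V} (h : Anc p a v) : a = v ∨ Anc p a (p v) := by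
  obtain ⟨k, hk⟩ := h
  cases k with
  | zero => exact Or.inl hk.symm
  | succ k => exact Or.inr ⟨k, by rw [Function.iterate_succ_apply] at hk; exact hk⟩

theorem RT.anc_root (h : RT r p) (v : V) : Anc p r v := h.2 v

theorem Anc.root_of (h : RT r p) {a : V} (ha : Anc p a r) : a = r := by
  obtain ⟨k, hk⟩ := ha
  rw [iter_root h.1] at hk
  exact hk.symm

/-- an ancestor is reached in `dep v - dep a` steps. -/
theorem Anc.iter_eq (h : RT r p) {a v : V} (ha : Anc p a v) :
    dep r p a ≤ dep r p v ∧ p^[dep r p v - dep r p a] v = a := by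
  obtain ⟨k, hk⟩ := ha
  by_cases hkd : k ≤ dep r p v
  · have := h.dep_iter k v hkd
    rw [hk] at this
    refine ⟨by omega, ?_⟩
    rw [show dep r p v - dep r p a = k by omega]
    exact hk
  · have h1 : p^[k] v = r := by
      rw [show k = (k - dep r p v) + dep r p v by omega, Function.iterate_add_apply,
        h.iter_dep v, iter_root h.1]
    rw [← hk, h1, dep_root]
    exact ⟨Nat.zero_le _, by rw [Nat.sub_zero]; exact h.iter_dep v⟩

theorem Anc.dep_le (h : RT r p) {a v : V} (ha : Anc p a v) : dep r p a ≤ dep r p v :=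
  (Anc.iter_eq h ha).1

theorem Anc.eq_of_dep_eq (h : RT r p) {a b v : V} (ha : Anc p a v) (hb : Anc p b v)
    (hd : dep r p a = dep r p b) : a = b := by
  rw [← (Anc.iter_eq h ha).2, ← (Anc.iter_eq h hb).2, hd]

theorem Anc.dep_lt (h : RT r p) {a v : V} (ha : Anc p a v) (hne : a ≠ v) :
    dep r p a < dep r p v := by
  rcases lt_or_eq_of_le (Anc.dep_le h ha) with h1 | h1
  · exact h1
  · exact absurd (Anc.eq_of_dep_eq h ha (Anc.refl v) h1) hne

theorem Anc.antisymm (h : RT r p) {a b : V} (h1 : Anc p a b) (h2 : Anc p b a) : a = b :=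
  Anc.eq_of_dep_eq h h1 (Anc.refl b) (le_antisymm (Anc.dep_le h h1) (Anc.dep_le h h2))

/-- two ancestors of a vertex are comparable. -/
theorem Anc.total (h : RT r p) {a b v : V} (ha : Anc p a v) (hb : Anc p b v) :
    Anc p a b ∨ Anc p b a := by
  obtain ⟨ha1, ha2⟩ := Anc.iter_eq h ha
  obtain ⟨hb1, hb2⟩ := Anc.iter_eq h hb
  rcases le_total (dep r p a) (dep r p b) with hab | hab
  · left
    refine ⟨dep r p b - dep r p a, ?_⟩
    calc p^[dep r p b - dep r p a] b
        = p^[dep r p b - dep r p a] (p^[dep r p v - dep r p b] v) := by rw [hb2]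
      _ = p^[dep r p b - dep r p a + (dep r p v - dep r p b)] v :=
          (Function.iterate_add_apply _ _ _ _).symm
      _ = p^[dep r p v - dep r p a] v := by
          rw [show dep r p b - dep r p a + (dep r p v - dep r p b) = dep r p v - dep r p a by omega]
      _ = a := ha2
  · right
    refine ⟨dep r p a - dep r p b, ?_⟩
    calc p^[dep r p a - dep r p b] a
        = p^[dep r p a - dep r p b] (p^[dep r p v - dep r p a] v) := by rw [ha2]
      _ = p^[dep r p a - dep r p b + (dep r p v - dep r p a)] v :=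
          (Function.iterate_add_apply _ _ _ _).symm
      _ = p^[dep r p v - dep r p b] v := by
          rw [show dep r p a - dep r p b + (dep r p v - dep r p a) = dep r p v - dep r p b by omega]
      _ = b := hb2

/-! ### conjugation -/

theorem Conj.refl (p : V → V) : Conj p p := ⟨Equiv.refl V, fun _ => rfl⟩

theorem Conj.symm (h : Conj p q) : Conj q p := by
  obtain ⟨θ, hθ⟩ := h
  refine ⟨θ.symm, fun v => ?_⟩
  rw [Equiv.symm_apply_eq, hθ, Equiv.apply_symm_apply]

theorem Conj.trans {s : V → V} (h : Conj p q) (h' : Conj q s) : Conj p s := by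
  obtain ⟨θ, hθ⟩ := h
  obtain ⟨η, hη⟩ := h'
  exact ⟨θ.trans η, fun v => by simp only [Equiv.trans_apply]; rw [hθ, hη]⟩

theorem conj_iter {θ : Equiv.Perm V} (hθ : ∀ v, θ (p v) = q (θ v)) (k : ℕ) (v : V) :
    θ (p^[k] v) = q^[k] (θ v) := by
  induction k generalizing v with
  | zero => rfl
  | succ k ih => rw [Function.iterate_succ_apply, Function.iterate_succ_apply, ih, hθ]

theorem conj_root (hp : RT r p) (hq : RT r q) {θ : Equiv.Perm V}
    (hθ : ∀ v, θ (p v) = q (θ v)) : θ r = r := by
  apply hq.eq_root_of_fix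
  rw [← hθ, hp.1]

theorem conj_dep (hp : RT r p) (hq : RT r q) {θ : Equiv.Perm V}
    (hθ : ∀ v, θ (p v) = q (θ v)) (v : V) : dep r q (θ v) = dep r p v := by
  have hr := conj_root hp hq hθ
  unfold dep
  congr 1
  ext k
  simp only [Set.mem_ofPred_eq]
  rw [← conj_iter hθ]
  constructor
  · intro h
    apply θ.injective
    rw [h, hr]
  · intro h
    rw [h, hr]

end basic

section fin
variable {V : Type} [Fintype V] [DecidableEq V] {r : V} {p q : V → V}

theorem mem_ch {v w : V} : v ∈ ch p w ↔ v ≠ w ∧ p v = w := by simp [ch]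

theorem RT.mem_ch_iff (h : RT r p) {v w : V} : v ∈ ch p w ↔ v ≠ r ∧ p v = w := by
  rw [mem_ch]
  constructor
  · rintro ⟨h1, h2⟩
    refine ⟨?_, h2⟩
    rintro rfl
    exact h1 (h.1 ▸ h2)
  · rintro ⟨h1, h2⟩
    refine ⟨?_, h2⟩
    rintro rfl
    exact h1 (h.eq_root_of_fix h2)

theorem RT.mem_ch_self (h : RT r p) {v : V} (hv : v ≠ r) : v ∈ ch p (p v) :=
  h.mem_ch_iff.2 ⟨hv, rfl⟩

theorem conj_ch {θ : Equiv.Perm V} (hθ : ∀ v, θ (p v) = q (θ v)) (w : V) :
    ch q (θ w) = (ch p w).map θ.toEmbedding := by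
  ext v
  rw [mem_ch, mem_map]
  constructor
  · rintro ⟨h1, h2⟩
    refine ⟨θ.symm v, mem_ch.2 ⟨?_, ?_⟩, by simp⟩
    · intro h
      apply h1
      rw [← h, Equiv.apply_symm_apply]
    · apply θ.injective
      rw [hθ, Equiv.apply_symm_apply]
      exact h2
  · rintro ⟨u, hu, rfl⟩
    rw [mem_ch] at hu
    refine ⟨fun h => hu.1 (θ.injective h), ?_⟩
    show q (θ u) = θ w
    rw [← hθ, hu.2]

theorem conj_ch_card {θ : Equiv.Perm V} (hθ : ∀ v, θ (p v) = q (θ v)) (w : V) :
    (ch q (θ w)).card = (ch p w).card := by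
  rw [conj_ch hθ, card_map]

/-- counting non-root vertices by their parents. -/
theorem RT.sum_ch (h : RT r p) : ∑ w, (ch p w).card + 1 = Fintype.card V := by
  have h1 : ∑ w, (ch p w).card = (univ.erase r).card := by
    rw [card_eq_sum_card_fiberwise (f := p) (t := univ) (fun _ _ => mem_coe.2 (mem_univ _))]
    apply sum_congr rfl
    intro w _
    congr 1
    ext v
    rw [h.mem_ch_iff]
    simp
  rw [h1, card_erase_of_mem (mem_univ r), card_univ]
  have : 0 < Fintype.card V := Fintype.card_pos_iff.2 ⟨r⟩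
  omega

/-- a vertex with a proper descendant has a child; more precisely the proper ancestors
of a vertex `v` have a child which is an ancestor of `v`. -/
theorem Anc.exists_child {a v : V} (ha : Anc p a v) (hne : a ≠ v) :
    ∃ u ∈ ch p a, Anc p u v := by
  obtain ⟨k, hk⟩ := ha
  induction k generalizing v with
  | zero => exact absurd hk.symm hne
  | succ k ih =>
    rw [Function.iterate_succ_apply] at hk
    by_cases h1 : a = p v
    · exact ⟨v, mem_ch.2 ⟨fun h => hne h.symm, h1.symm⟩, Anc.refl v⟩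
    · obtain ⟨u, hu, huv⟩ := ih h1 hk
      exact ⟨u, hu, huv.trans (Anc.parent v)⟩

theorem ch_card_le {G : SimpleGraph V} (hp : InG G p) (w : V) : (ch p w).card ≤ dg G w := by
  have hfin : (G.neighborSet w).Finite := Set.toFinite _
  unfold dg
  rw [← Set.ncard_coe_finset]
  apply Set.ncard_le_ncard _ hfin
  intro v hv
  rw [mem_coe, mem_ch] at hv
  have := hp v (by rw [hv.2]; exact fun h => hv.1 h.symm)
  rw [hv.2] at this
  exact this.symm

end fin

/-- representatives of the classes of an equivalence relation on a finite set. -/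
theorem reps {α : Type*} [DecidableEq α] (F : Finset α) (R : α → α → Prop)
    (hsymm : ∀ a b, R a b → R b a) (htrans : ∀ a b c, R a b → R b c → R a c)
    (hrefl : ∀ a, R a a) (K : ℕ)
    (hK : ∀ a ∈ F, ∀ E ⊆ F, (∀ b ∈ E, R a b) → E.card ≤ K) :
    ∃ F' ⊆ F, (∀ a ∈ F', ∀ b ∈ F', R a b → a = b) ∧ F.card ≤ K * F'.card := by
  classical
  let s : Setoid α := ⟨R, ⟨hrefl, fun {a b} => hsymm a b, fun {a b c} => htrans a b c⟩⟩
  let Q : Finset (Quotient s) := F.image (fun a => Quotient.mk s a)
  have hQ : ∀ x, ∃ a : α, x ∈ Q → (a ∈ F ∧ Quotient.mk s a = x) := fun x => by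
    by_cases hx : x ∈ Q
    · obtain ⟨a, ha, h⟩ := mem_image.1 hx
      exact ⟨a, fun _ => ⟨ha, h⟩⟩
    · obtain ⟨a, _⟩ := Quotient.exists_rep x
      exact ⟨a, fun h => absurd h hx⟩
  choose g hg using hQ
  have hg1 : ∀ x ∈ Q, g x ∈ F := fun x hx => (hg x hx).1
  have hg2 : ∀ x ∈ Q, Quotient.mk s (g x) = x := fun x hx => (hg x hx).2
  refine ⟨Q.image g, ?_, ?_, ?_⟩
  · intro a ha
    obtain ⟨x, hx, rfl⟩ := mem_image.1 ha
    exact hg1 x hx
  · intro a ha b hb hab
    obtain ⟨x, hx, rfl⟩ := mem_image.1 ha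
    obtain ⟨y, hy, rfl⟩ := mem_image.1 hb
    have : Quotient.mk s (g x) = Quotient.mk s (g y) := Quotient.sound hab
    rw [hg2 x hx, hg2 y hy] at this
    rw [this]
  · have hinj : Set.InjOn g Q := by
      intro x hx y hy hxy
      rw [← hg2 x hx, ← hg2 y hy, hxy]
    rw [card_image_of_injOn hinj]
    have h1 : F.card ≤ ∑ x ∈ Q, K := by
      rw [card_eq_sum_card_fiberwise (f := fun a => Quotient.mk s a) (t := Q)
        (fun a ha => mem_coe.2 (mem_image_of_mem _ ha))]
      apply sum_le_sum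
      intro x hx
      apply hK (g x) (hg1 x hx) _ (filter_subset _ _)
      intro b hb
      rw [mem_filter] at hb
      have : Quotient.mk s (g x) = Quotient.mk s b := by rw [hg2 x hx, hb.2]
      exact Quotient.exact this
    rw [sum_const, smul_eq_mul, mul_comm] at h1
    exact h1

end N943.NT
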