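import Mathlib

set_option autoImplicit false

/-!
# Project NT: non-isomorphic spanning trees of graphs with degrees in [3, D]

Rooted trees are parent functions `p : V → V` with root `r` (`p r = r`).
-/

namespace N943.NT

open Finset

/-- `p` is the parent function of a tree on `V` with root `r` (and `p r = r`). -/
def RT {V : Type} (r : V) (p : V → V) : Prop := p r = r ∧ ∀ v, ∃ k, p^[k] v = r

/-- depth of `v` below the root `r`. -/
noncomputable def dep {V : Type} (r : V) (p : V → V) (v : V) : ℕ := sInf {k | p^[k] v = r}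

/-- `a` is an ancestor of `v` (or `v` itself). -/
def Anc {V : Type} (p : V → V) (a v : V) : Prop := ∃ k, p^[k] v = a

/-- the children of `w`. -/
def ch {V : Type} [Fintype V] [DecidableEq V] (p : V → V) (w : V) : Finset V :=
  univ.filter (fun v => v ≠ w ∧ p v = w)

/-- the childless vertices. -/
def nochild {V : Type} [Fintype V] [DecidableEq V] (p : V → V) : Finset V :=
  univ.filter (fun v => ch p v = ∅)

/-- the graph of the tree. -/
def gr {V : Type} (p : V → V) : SimpleGraph V := SimpleGraph.fromRel (fun v w => p v = w)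

/-- all tree edges are edges of `G`. -/
def InG {V : Type} (G : SimpleGraph V) (p : V → V) : Prop := ∀ v, p v ≠ v → G.Adj v (p v)

/-- every edge of `G` joins an ancestor and a descendant (DFS tree). -/
def Normal {V : Type} (G : SimpleGraph V) (p : V → V) : Prop :=
  ∀ u v, G.Adj u v → Anc p u v ∨ Anc p v u

/-- isomorphism of rooted trees on the same vertex set. -/
def Conj {V : Type} (p q : V → V) : Prop := ∃ θ : Equiv.Perm V, ∀ v, θ (p v) = q (θ v)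

/-- degree. -/
noncomputable def dg {V : Type} (G : SimpleGraph V) (v : V) : ℕ := (G.neighborSet v).ncard

/-! ## The pieces -/

/-- NT/1 -/
def TreeOf : Prop := ∀ (V : Type) [Fintype V] (G : SimpleGraph V) (r : V) (p : V → V),
  RT r p → InG G p → gr p ≤ G ∧ (gr p).IsTree

/-- NT/2 -/
def Reroot : Prop := ∀ (V : Type) [Fintype V] [DecidableEq V] (r : V) (F : Finset (V → V)),
  (∀ p ∈ F, RT r p) → (∀ p ∈ F, ∀ q ∈ F, Conj p q → p = q) →
  ∃ F' ⊆ F, F.card ≤ Fintype.card V * F'.card ∧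
    ∀ p ∈ F', ∀ q ∈ F', Nonempty (gr p ≃g gr q) → p = q

/-- NT/3 -/
def ExNormal : Prop := ∀ (V : Type) [Fintype V] [DecidableEq V] (G : SimpleGraph V) (r : V),
  G.Connected → ∃ p : V → V, RT r p ∧ InG G p ∧ Normal G p

/-- NT/4 -/
def Decode : Prop := ∀ (V : Type) [Fintype V] [DecidableEq V] (r : V) (D β : ℕ)
  (F : Finset (V → V)),
  (∀ p ∈ F, RT r p) → (∀ p ∈ F, ∀ w, (ch p w).card ≤ D) →
  (∀ p ∈ F, (univ.filter (fun w => 2 ≤ (ch p w).card)).card ≤ β) →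
  (∀ p ∈ F, ∀ q ∈ F, ∀ w, (ch p w).card = (ch q w).card → ch p w = ch q w) →
  ∃ F' ⊆ F, (∀ p ∈ F', ∀ q ∈ F', Conj p q → p = q) ∧ F.card ≤ (D.factorial) ^ β * F'.card

/-- a set `B` of vertices `b` that may be re-parented from `p b` to `y b`, all the
`2|B|` vertices involved being different. -/
def GoodB {V : Type} (G : SimpleGraph V) (p y : V → V) (B : Finset V) : Prop :=
  (∀ b ∈ B, p b ≠ b ∧ G.Adj b (y b) ∧ y b ≠ p b ∧ Anc p (y b) (p b)) ∧
  (∀ b ∈ B, ∀ b' ∈ B, p b ≠ y b' ∧ (p b = p b' → b = b') ∧ (y b = y b' → b = b'))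

/-- NT/5a -/
def ExB : Prop := ∀ (V : Type) [Fintype V] [DecidableEq V] (G : SimpleGraph V) (r : V)
  (p : V → V) (D : ℕ), RT r p → InG G p → Normal G p → (∀ v, 3 ≤ dg G v ∧ dg G v ≤ D) →
  ∃ (B : Finset V) (y : V → V), GoodB G p y B ∧ Fintype.card V ≤ 4 * D ^ 2 * B.card

/-- NT/5b -/
def SwapFam : Prop := ∀ (V : Type) [Fintype V] [DecidableEq V] (G : SimpleGraph V) (r : V)
  (p y : V → V) (D k : ℕ) (B : Finset V), RT r p → InG G p → (∀ v, dg G v ≤ D) →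
  GoodB G p y B →
  ∃ F : Finset (V → V), (∀ q ∈ F, RT r q ∧ InG G q) ∧
    (∀ q ∈ F, ∀ q' ∈ F, Conj q q' → q = q') ∧
    B.card.choose k ≤ (D.factorial) ^ ((nochild p).card + k) * F.card

/-- NT/5c -/
def NumI : Prop := ∀ D : ℕ, 1 ≤ D → ∃ δ c : ℝ, 0 < δ ∧ 0 < c ∧ ∃ n0 : ℕ, ∀ n b l : ℕ,
  n0 ≤ n → n ≤ 4 * D ^ 2 * b → (l : ℝ) ≤ δ * n →
  ∃ k : ℕ, Real.exp (c * n) * (D.factorial : ℝ) ^ (l + k) ≤ (b.choose k : ℝ)

/-- labels `c`, increased by one on `X`. -/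
def lab {V : Type} [DecidableEq V] (c : V → ℕ) (X : Finset V) (v : V) : ℕ :=
  c v + if v ∈ X then 1 else 0

/-- the number of different multisets `{x i : i ∈ s}` with `x i ∈ C i`. -/
noncomputable def mult {ι : Type} [DecidableEq ι] (s : Finset ι) (C : ι → Finset ℕ) : ℕ :=
  ((s.pi C).image (fun x => s.attach.val.map (fun i => x i.1 i.2))).card

/-- NT/6a -/
def MultBd : Prop := ∀ (ι : Type) [DecidableEq ι] (s : Finset ι) (C : ι → Finset ℕ),
  (∀ i ∈ s, (C i).Nonempty) →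
  (∀ i ∈ s, (C i).card ≤ mult s C) ∧
  (∀ i ∈ s, ∀ j ∈ s, i ≠ j → 2 ≤ (C i).card → 2 ≤ (C j).card → 3 * (C i).card ≤ 2 * mult s C) ∧
  (∀ I ⊆ s, (∏ i ∈ I, (C i).card) ≤ I.card.factorial * mult s C) ∧
  (1 + ∑ i ∈ s, ((C i).card - 1) ≤ mult s C)

/-- NT/6b: abstract recursion. -/
def Growth : Prop := ∀ D : ℕ, ∃ γ : ℝ, 1 < γ ∧ ∀ (V : Type) [Fintype V] [DecidableEq V]
  (r : V) (p : V → V) (M : Finset V) (C : V → Finset ℕ), RT r p → (∀ w, (ch p w).card ≤ D) →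
  (∀ w, (C w).Nonempty) →
  (∀ w, (if w ∈ M then 2 else 1) * mult (ch p w) C ≤ (C w).card) →
  γ ^ M.card ≤ ((C r).card : ℝ)

/-- NT/6: the marks lemma -/
def Marks : Prop := ∀ D : ℕ, ∃ γ : ℝ, 1 < γ ∧ ∀ (V : Type) [Fintype V] [DecidableEq V]
  (r : V) (p : V → V) (c : V → ℕ) (M : Finset V), RT r p → (∀ w, (ch p w).card ≤ D) →
  ∃ F : Finset (Finset V), (∀ X ∈ F, X ⊆ M) ∧ γ ^ M.card ≤ (F.card : ℝ) ∧
    ∀ X ∈ F, ∀ Y ∈ F, (∃ θ : Equiv.Perm V, (∀ v, θ (p v) = p (θ v)) ∧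
      ∀ v, lab c Y (θ v) = lab c X v) → X = Y

/-- childless vertices with disjoint neighbourhoods and two more neighbours each. -/
def GoodU {V : Type} [Fintype V] [DecidableEq V] (G : SimpleGraph V) (p a b : V → V)
    (U : Finset V) : Prop :=
  (∀ u ∈ U, ch p u = ∅ ∧ G.Adj u (a u) ∧ G.Adj u (b u) ∧ a u ≠ b u ∧
    a u ≠ p u ∧ Anc p (a u) (p u) ∧ b u ≠ p u ∧ Anc p (b u) (p u)) ∧
  (∀ u ∈ U, ∀ u' ∈ U, ∀ w, G.Adj u w → G.Adj u' w → u = u')

/-- NT/7a -/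
def ExU : Prop := ∀ (V : Type) [Fintype V] [DecidableEq V] (G : SimpleGraph V) (r : V)
  (p : V → V) (D : ℕ), RT r p → InG G p → Normal G p → (∀ v, 3 ≤ dg G v ∧ dg G v ≤ D) →
  ∃ (U : Finset V) (a b : V → V), GoodU G p a b U ∧ (nochild p).card ≤ D ^ 2 * U.card

/-- NT/7b -/
def ExS : Prop := ∀ (V : Type) [DecidableEq V] (U : Finset V) (f g : V → ℕ),
  (∀ u ∈ U, f u ≠ g u) → ∃ S : Finset ℕ, U.card ≤ 4 * (U.filter (fun u => g u ∈ S ∧ f u ∉ S)).card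

/-- NT/7c -/
def LeafFam : Prop := ∀ D : ℕ, ∃ γ : ℝ, 1 < γ ∧ ∀ (V : Type) [Fintype V] [DecidableEq V]
  (G : SimpleGraph V) (r : V) (p a b : V → V) (U : Finset V) (S : Finset ℕ),
  RT r p → InG G p → (∀ v, dg G v ≤ D) → GoodU G p a b U →
  ∃ F : Finset (V → V), (∀ q ∈ F, RT r q ∧ InG G q) ∧
    (∀ q ∈ F, ∀ q' ∈ F, Conj q q' → q = q') ∧
    γ ^ (U.filter (fun u => dep r p (b u) ∈ S ∧ dep r p (a u) ∉ S)).card ≤ (F.card : ℝ)

/-- NT/8 -/
def TwoTrees : Prop := ∀ (V : Type) [Fintype V] [DecidableEq V] (G : SimpleGraph V),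
  G.Connected → (∀ v, 3 ≤ dg G v) → ∃ (r : V) (p q : V → V), RT r p ∧ InG G p ∧ RT r q ∧
    InG G q ∧ ¬ Nonempty (gr p ≃g gr q)

end N943.NT
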